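import Pool.Agent.H13.EV.Defs

/-!
# MP_6b5a9a_nt, module BAL: degrees of a balanced element
-/

open Polynomial

namespace Pool.Agent.H54.EV

open Pool.Agent.H62.HE Pool.Agent.H13.EV

universe u

section

variable {k : Type u} [Field k]

/-- the reflected polynomial, as a power series -/
noncomputable def Rf (D : ℕ) (p : k[X]) : PowerSeries k := ((reflect D p : k[X]) : PowerSeries k)

theorem Rf_mul {D D' : ℕ} {p q : k[X]} (hp : p.natDegree ≤ D) (hq : q.natDegree ≤ D') :
    Rf D p * Rf D' q = Rf (D + D') (p * q) := by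
  unfold Rf
  rw [reflect_mul p q hp hq, Polynomial.coe_mul]

theorem Rf_add (D : ℕ) (p q : k[X]) : Rf D (p + q) = Rf D p + Rf D q := by
  unfold Rf
  rw [reflect_add, Polynomial.coe_add]

theorem Rf_map (τ : k →+* k) (D : ℕ) (p : k[X]) :
    PowerSeries.map τ (Rf D p) = Rf D (p.map τ) := by
  unfold Rf
  ext i
  rw [PowerSeries.coeff_map, Polynomial.coeff_coe, Polynomial.coeff_coe, coeff_reflect,
    coeff_reflect, coeff_map]

theorem Rf_dvd {D m : ℕ} {p : k[X]} (hp : p ≠ 0) (hD : p.natDegree ≤ D)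
    (h : (PowerSeries.X : PowerSeries k) ^ m ∣ Rf D p) : p.natDegree + m ≤ D := by
  by_contra hlt
  rw [PowerSeries.X_pow_dvd_iff] at h
  have h1 := h (D - p.natDegree) (by omega)
  unfold Rf at h1
  rw [Polynomial.coeff_coe, coeff_reflect, revAt_le (Nat.sub_le _ _), Nat.sub_sub_self hD] at h1
  exact hp (leadingCoeff_eq_zero.1 h1)

theorem dvd_Rf {D : ℕ} {p : k[X]} (hD : p.natDegree ≤ D) :
    (PowerSeries.X : PowerSeries k) ^ (D - p.natDegree) ∣ Rf D p := by
  rw [PowerSeries.X_pow_dvd_iff]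
  intro i hi
  unfold Rf
  rw [Polynomial.coeff_coe, coeff_reflect, revAt_le (by omega)]
  exact coeff_eq_zero_of_natDegree_lt (by omega)

theorem core (g e e0 : ℕ) (f a b a0 b0 p : k[X]) (τ : k →+* k) (S : PowerSeries k)
    (hS : S ^ 2 = Rf (2 * g + 2) f) (hτS : PowerSeries.map τ S = S)
    (hf : f.natDegree ≤ 2 * g + 2) (ha : a.natDegree ≤ e + g + 1) (hb : b.natDegree ≤ e)
    (ha0 : a0.natDegree ≤ e0 + g + 1) (hb0 : b0.natDegree ≤ e0) (hp : p.natDegree ≤ e + g + 1)
    (h1 : a * a0.map τ + f * (b * b0.map τ) = p * a0)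
    (h2 : a * b0.map τ + b * a0.map τ = p * b0)
    (hne : Rf (e0 + g + 1) a0 + Rf e0 b0 * S ≠ 0) :
    (PowerSeries.X : PowerSeries k) ^ (e + g + 1 - p.natDegree) ∣
      Rf (e + g + 1) a + Rf e b * S := by
  have ha0' : (a0.map τ).natDegree ≤ e0 + g + 1 := (natDegree_map_le).trans ha0
  have hb0' : (b0.map τ).natDegree ≤ e0 := (natDegree_map_le).trans hb0
  have key : (Rf (e + g + 1) a + Rf e b * S) *
      PowerSeries.map τ (Rf (e0 + g + 1) a0 + Rf e0 b0 * S) =
      Rf (e + g + 1) p * (Rf (e0 + g + 1) a0 + Rf e0 b0 * S) := by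
    rw [map_add, map_mul, hτS, Rf_map, Rf_map]
    have i1 : Rf (e + g + 1) a * Rf (e0 + g + 1) (a0.map τ) =
        Rf (e + g + 1 + (e0 + g + 1)) (a * a0.map τ) := Rf_mul ha ha0'
    have i2 : Rf e b * Rf e0 (b0.map τ) = Rf (e + e0) (b * b0.map τ) := Rf_mul hb hb0'
    have i3 : Rf (2 * g + 2) f * Rf (e + e0) (b * b0.map τ) =
        Rf (e + g + 1 + (e0 + g + 1)) (f * (b * b0.map τ)) := by
      rw [Rf_mul hf (natDegree_mul_le.trans (add_le_add hb hb0'))]
      congr 1
      ring
    have i4 : Rf (e + g + 1) a * Rf e0 (b0.map τ) = Rf (e + g + 1 + e0) (a * b0.map τ) :=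
      Rf_mul ha hb0'
    have i5 : Rf e b * Rf (e0 + g + 1) (a0.map τ) = Rf (e + g + 1 + e0) (b * a0.map τ) := by
      rw [Rf_mul hb ha0']
      congr 1
      ring
    have i6 : Rf (e + g + 1) p * Rf (e0 + g + 1) a0 = Rf (e + g + 1 + (e0 + g + 1)) (p * a0) :=
      Rf_mul hp ha0
    have i7 : Rf (e + g + 1) p * Rf e0 b0 = Rf (e + g + 1 + e0) (p * b0) := Rf_mul hp hb0
    have j1 := congrArg (Rf (e + g + 1 + (e0 + g + 1))) h1
    have j2 := congrArg (Rf (e + g + 1 + e0)) h2
    rw [Rf_add] at j1 j2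
    rw [← i1, ← i3, ← i2, ← hS, ← i6] at j1
    rw [← i4, ← i5, ← i7] at j2
    linear_combination j1 + S * j2
  -- split off the power of `X`
  set A := Rf (e0 + g + 1) a0 + Rf e0 b0 * S with hA
  obtain ⟨j, A1, hA1, hc⟩ : ∃ (j : ℕ) (A1 : PowerSeries k), A = PowerSeries.X ^ j * A1 ∧
      PowerSeries.constantCoeff A1 ≠ 0 := by
    refine ⟨A.order.toNat, A.divXPowOrder, PowerSeries.X_pow_order_mul_divXPowOrder.symm, ?_⟩
    rw [Ne, PowerSeries.constantCoeff_divXPowOrder_eq_zero_iff]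
    exact hne
  rw [hA1, map_mul, map_pow, PowerSeries.map_X] at key
  have hX : (PowerSeries.X : PowerSeries k) ^ j ≠ 0 := pow_ne_zero _ PowerSeries.X_ne_zero
  have key2 : (Rf (e + g + 1) a + Rf e b * S) * PowerSeries.map τ A1 = Rf (e + g + 1) p * A1 := by
    apply mul_left_cancel₀ hX
    linear_combination key
  have hunit : IsUnit (PowerSeries.map τ A1) := by
    rw [PowerSeries.isUnit_iff_constantCoeff]
    rw [isUnit_iff_ne_zero, ← PowerSeries.coeff_zero_eq_constantCoeff_apply,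
      PowerSeries.coeff_map, PowerSeries.coeff_zero_eq_constantCoeff_apply]
    exact (map_ne_zero τ).2 hc
  rw [← hunit.dvd_mul_right, key2]
  exact (dvd_Rf hp).mul_right _

theorem sq_ne (g : ℕ) (f a0 b0 : k[X]) (hsq : Squarefree f) (hf : f.natDegree = 2 * g + 2)
    (h0 : a0 ≠ 0 ∨ b0 ≠ 0) : a0 ^ 2 ≠ f * b0 ^ 2 := by
  intro h
  have hb : b0 ≠ 0 := by
    rintro rfl
    rw [zero_pow two_ne_zero, mul_zero] at h
    rcases h0 with h0 | h0
    · exact h0 (pow_eq_zero_iff two_ne_zero |>.1 h)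
    · exact h0 rfl
  have h1 : b0 ^ 2 ∣ a0 ^ 2 := ⟨f, by rw [h]; ring⟩
  have h2 : b0 ∣ a0 := (IsIntegrallyClosed.pow_dvd_pow_iff two_ne_zero).1 h1
  obtain ⟨m, rfl⟩ := h2
  have h3 : f = m * m := by
    apply mul_right_cancel₀ (pow_ne_zero 2 hb)
    linear_combination -h
  have h4 : IsUnit m := hsq m ⟨1, by rw [mul_one]; exact h3⟩
  have h5 : m.natDegree = 0 := natDegree_eq_zero_of_isUnit h4
  have h6 : f.natDegree = 0 := by
    rw [h3]
    have := natDegree_mul_le (p := m) (q := m)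
    omega
  omega

theorem phi_ne (g e0 : ℕ) (f a0 b0 : k[X]) (S : PowerSeries k) (hS : S ^ 2 = Rf (2 * g + 2) f)
    (hsq : Squarefree f) (hf : f.natDegree = 2 * g + 2) (h0 : a0 ≠ 0 ∨ b0 ≠ 0)
    (ha0 : a0.natDegree ≤ e0 + g + 1) (hb0 : b0.natDegree ≤ e0) :
    Rf (e0 + g + 1) a0 + Rf e0 b0 * S ≠ 0 := by
  intro h
  have h1 : Rf (e0 + g + 1) a0 * Rf (e0 + g + 1) a0 =
      Rf (2 * g + 2) f * (Rf e0 b0 * Rf e0 b0) := by
    rw [← hS]
    linear_combination (Rf (e0 + g + 1) a0 - Rf e0 b0 * S) * h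
  rw [Rf_mul ha0 ha0, Rf_mul hb0 hb0, Rf_mul hf.le (natDegree_mul_le.trans (add_le_add hb0 hb0)),
    show 2 * g + 2 + (e0 + e0) = e0 + g + 1 + (e0 + g + 1) by ring] at h1
  have h2 : reflect (e0 + g + 1 + (e0 + g + 1)) (a0 * a0) =
      reflect (e0 + g + 1 + (e0 + g + 1)) (f * (b0 * b0)) := Polynomial.coe_injective k h1
  have h3 := congrArg (reflect (e0 + g + 1 + (e0 + g + 1))) h2
  rw [reflect_reflect, reflect_reflect] at h3
  exact sq_ne g f a0 b0 hsq hf h0 (by rw [sq, sq]; exact h3)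

end

theorem bal (h : T_SQS.{u}) : T_BAL.{u} := by
  intro k _ g n N f u r c τ a0 b0 a b h2 hsq hf hr hτr hτf hc h0 hu hu0 heq
  have hf0 : f ≠ 0 := by
    rintro rfl
    rw [natDegree_zero] at hf
    omega
  have hr0 : r ≠ 0 := by
    rintro rfl
    rw [zero_pow two_ne_zero] at hr
    exact hf0 (leadingCoeff_eq_zero.1 hr.symm)
  have hlc : PowerSeries.constantCoeff (Rf (2 * g + 2) f) = f.leadingCoeff := by
    unfold Rf
    rw [Polynomial.constantCoeff_coe, coeff_reflect, revAt_zero, leadingCoeff, hf]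
  obtain ⟨S, hS, hSr⟩ := h k (Rf (2 * g + 2) f) r h2 hr0 (by rw [hlc, hr])
  have hfτ : f.map (τ : k →+* k) = f := by
    ext i
    rw [coeff_map]
    exact hτf i
  have hSτ : PowerSeries.map (τ : k →+* k) S = S := by
    have h3 : (PowerSeries.map (τ : k →+* k) S - S) * (PowerSeries.map (τ : k →+* k) S + S) = 0 := by
      have h4 : (PowerSeries.map (τ : k →+* k) S) ^ 2 = S ^ 2 := by
        rw [← map_pow, hS, Rf_map, hfτ]
      linear_combination h4
    rcases mul_eq_zero.1 h3 with h4 | h4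
    · exact sub_eq_zero.1 h4
    · exfalso
      have h5 := congrArg (PowerSeries.constantCoeff (R := k)) h4
      rw [map_add, ← PowerSeries.coeff_zero_eq_constantCoeff_apply, PowerSeries.coeff_map,
        PowerSeries.coeff_zero_eq_constantCoeff_apply, map_zero, hSr] at h5
      have h6 : (τ : k →+* k) r = r := hτr
      rw [h6] at h5
      have : (2 : k) * r = 0 := by linear_combination h5
      rcases mul_eq_zero.1 this with h7 | h7
      · exact h2 h7
      · exact hr0 h7
  have e1 : a * a0.map (τ : k →+* k) + f * (b * b0.map (τ : k →+* k)) = C c * u ^ N * a0 := by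
    have := congrArg QuadraticAlgebra.re heq
    simp only [QuadraticAlgebra.re_mul] at this
    linear_combination this
  have e2 : a * b0.map (τ : k →+* k) + b * a0.map (τ : k →+* k) = C c * u ^ N * b0 := by
    have := congrArg QuadraticAlgebra.im heq
    simp only [QuadraticAlgebra.im_mul] at this
    linear_combination this
  have hpd : (C c * u ^ N).natDegree = N * n := by
    rw [natDegree_C_mul hc, natDegree_pow, hu]
  set p := C c * u ^ N with hp
  set e := a.natDegree + b.natDegree + p.natDegree with he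
  set e0 := a0.natDegree + b0.natDegree with he0
  have hS' : (-S) ^ 2 = Rf (2 * g + 2) f := by rw [neg_sq, hS]
  have hSτ' : PowerSeries.map (τ : k →+* k) (-S) = -S := by rw [map_neg, hSτ]
  have d1 := core g e e0 f a b a0 b0 p (τ : k →+* k) S hS hSτ hf.le (by omega) (by omega)
    (by omega) (by omega) (by omega) e1 e2
    (phi_ne g e0 f a0 b0 S hS hsq hf h0 (by omega) (by omega))
  have d2 := core g e e0 f a b a0 b0 p (τ : k →+* k) (-S) hS' hSτ' hf.le (by omega) (by omega)
    (by omega) (by omega) (by omega) e1 e2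
    (phi_ne g e0 f a0 b0 (-S) hS' hsq hf h0 (by omega) (by omega))
  have h2u : IsUnit (2 : PowerSeries k) := by
    rw [PowerSeries.isUnit_iff_constantCoeff, map_ofNat]
    exact isUnit_iff_ne_zero.2 h2
  have hSu : IsUnit S := by
    rw [PowerSeries.isUnit_iff_constantCoeff, hSr]
    exact isUnit_iff_ne_zero.2 hr0
  constructor
  · by_cases ha : a = 0
    · rw [ha, natDegree_zero]
      exact Nat.zero_le _
    · have d3 : (PowerSeries.X : PowerSeries k) ^ (e + g + 1 - p.natDegree) ∣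
          Rf (e + g + 1) a := by
        have := dvd_add d1 d2
        rw [show Rf (e + g + 1) a + Rf e b * S + (Rf (e + g + 1) a + Rf e b * -S) =
          2 * Rf (e + g + 1) a by ring, h2u.dvd_mul_left] at this
        exact this
      have := Rf_dvd ha (by omega) d3
      omega
  · by_cases hb : b = 0
    · exact Or.inl hb
    · right
      have d3 : (PowerSeries.X : PowerSeries k) ^ (e + g + 1 - p.natDegree) ∣ Rf e b := by
        have := dvd_sub d1 d2
        rw [show Rf (e + g + 1) a + Rf e b * S - (Rf (e + g + 1) a + Rf e b * -S) =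
          2 * (Rf e b * S) by ring, h2u.dvd_mul_left, hSu.dvd_mul_right] at this
        exact this
      have := Rf_dvd hb (by omega) d3
      omega

end Pool.Agent.H54.EV
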