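import Pool.Agent.H13.EV.Defs
import Pool.Agent.H33.HP.CL

/-!
# MP_6b5a9a_nt, module GEN: a generator which is balanced at infinity
-/

open Polynomial

namespace Pool.Agent.H54.EV

open Pool.Agent.H62.HE Pool.Agent.H13.EV

universe u

theorem gen (h : Pool.Agent.H13.EV.T_IDL.{u}) : T_GEN.{u} := by
  intro k _ f u w _ N τ h2 hu hN hdvd hcop hτf hτu hτw hpr
  have hf' : f.map (τ : k →+* k) = f := by
    ext i
    rw [coeff_map]
    exact hτf i
  have hu' : u.map (τ : k →+* k) = u := by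
    ext i
    rw [coeff_map]
    exact hτu i
  have hw' : w.map (τ : k →+* k) = -w := by
    ext i
    rw [coeff_map, coeff_neg]
    exact hτw i
  obtain ⟨⟨H0, hH0⟩⟩ := hpr
  have hH0 : II f u w ^ N = Ideal.span {H0} := hH0
  have hunz : (⟨u, 0⟩ : HR k f) ≠ 0 := by
    intro h0
    exact hu (congrArg QuadraticAlgebra.re h0)
  have hmul : II f u w * II f u (-w) = Ideal.span {(⟨u, 0⟩ : HR k f)} :=
    Pool.Agent.H33.HP.CL.II_mul h2 f u w hdvd hcop
  have hmap : (II f u w).map (mapHR (τ : k →+* k) f f hf') = II f u (-w) :=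
    II_map _ _ _ _ _ _ _ _ hu' hw'
  set Φ := mapHR (τ : k →+* k) f f hf' with hΦ
  have hmapN : II f u (-w) ^ N = Ideal.span {Φ H0} := by
    rw [← hmap, ← Ideal.map_pow, hH0, Ideal.map_span, Set.image_singleton]
  have hprod : Ideal.span {H0 * Φ H0} = Ideal.span {(⟨u, 0⟩ : HR k f) ^ N} := by
    rw [← Ideal.span_singleton_mul_span_singleton, ← hH0, ← hmapN, ← mul_pow, hmul,
      Ideal.span_singleton_pow]
  obtain ⟨ε, hε⟩ := Ideal.span_singleton_eq_span_singleton.1 hprod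
  -- `H0 * Φ H0 * ε = (u, 0) ^ N`
  have hH0nz : H0 ≠ 0 := by
    rintro rfl
    rw [zero_mul, zero_mul] at hε
    exact pow_ne_zero N hunz hε.symm
  obtain ⟨a, b, hab⟩ : ∃ a b : k[X], (⟨a, b⟩ : HR k f) = (ε : HR k f) * H0 ^ 2 :=
    ⟨_, _, rfl⟩
  have hspan : II f u w ^ (2 * N) = Ideal.span {(⟨a, b⟩ : HR k f)} := by
    rw [hab, mul_comm 2 N, pow_mul, hH0, Ideal.span_singleton_pow]
    rw [Ideal.span_singleton_eq_span_singleton]
    exact ⟨ε, mul_comm _ _⟩
  obtain ⟨W, c, hc, hWw, hWf, hW, hnorm⟩ := h k f u w a b (2 * N) h2 hu (by omega) hdvd hcop hspan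
  refine ⟨H0.re, H0.im, a, b, 1, c, one_ne_zero, hc, ?_, hspan, hnorm, ?_, ?_, ?_⟩
  · by_contra hno
    push Not at hno
    apply hH0nz
    ext1
    · exact hno.1
    · exact hno.2
  · obtain ⟨r, hr⟩ := hWf
    obtain ⟨m, hm⟩ := hW
    have huN : u ^ (2 * N) ≠ 0 := pow_ne_zero _ hu
    have key : m * (a - b * W) = C c - b ^ 2 * r := by
      apply mul_left_cancel₀ huN
      linear_combination (-(a - b * W)) * hm + hnorm - b ^ 2 * hr
    refine ⟨C c⁻¹ * m, -(C c⁻¹ * (m * W - b * r)), ?_⟩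
    have h1 : (C c⁻¹ : k[X]) * C c = 1 := by
      rw [← C_mul, inv_mul_cancel₀ hc, C_1]
    linear_combination C c⁻¹ * key + h1
  · have h1 : u ∣ a + b * W := (dvd_pow_self u (by omega)).trans hW
    have h3 : a + b * w = (a + b * W) - b * (W - w) := by ring
    rw [h3]
    exact dvd_sub h1 (hWw.mul_left b)
  · have e1 : (⟨H0.re.map (τ : k →+* k), H0.im.map (τ : k →+* k)⟩ : HR k f) = Φ H0 := rfl
    have e2 : (⟨C 1 * u ^ N, 0⟩ : HR k f) = (⟨u, 0⟩ : HR k f) ^ N := by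
      have h3 : ∀ n : ℕ, (⟨u, 0⟩ : HR k f) ^ n = ⟨u ^ n, 0⟩ := by
        intro n
        induction n with
        | zero =>
          rw [pow_zero, pow_zero]
          ext1 <;> simp [QuadraticAlgebra.re_one, QuadraticAlgebra.im_one]
        | succ n ih =>
          rw [pow_succ, ih]
          ext1 <;> simp [pow_succ]
      rw [h3, C_1, one_mul]
    have e3 : (⟨H0.re, H0.im⟩ : HR k f) = H0 := rfl
    rw [e1, e2, e3, hab, ← hε]
    ring

end Pool.Agent.H54.EV
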